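import Pool.Agent.W666.FrechetMod

/-!
# A Fréchet algebra over which no non-zero Fréchet module has an injective coresolution
-/

set_option autoImplicit false

namespace Pool.Agent.Results.MP_8296bc_an.NoCoresolution

open Pool.Agent.W666

universe u

/-- A Fréchet module together with its underlying Fréchet space. -/
structure FrechetMod (A : Type) [NonUnitalRing A] [Module ℂ A] [UniformSpace A] where
  carrier : Type u
  [grp : AddCommGroup carrier]
  [mod : Module ℂ carrier]
  [unif : UniformSpace carrier]
  [frechet : IsFrechetSpace carrier]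
  str : LeftModule A carrier

attribute [instance] FrechetMod.grp FrechetMod.mod FrechetMod.unif FrechetMod.frechet

section

variable {A : Type} [NonUnitalRing A] [Module ℂ A] [UniformSpace A]

/-- Continuous linear maps between the underlying Fréchet spaces. -/
def Map (P Q : FrechetMod.{u} A) : Type u := P.carrier →L[ℂ] Q.carrier

/-- The value of a map. -/
def Map.app {P Q : FrechetMod.{u} A} (f : Map P Q) (x : P.carrier) : Q.carrier :=
  (show P.carrier →L[ℂ] Q.carrier from f) x

/-- The map is a morphism of modules. -/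
def Map.IsMor {P Q : FrechetMod.{u} A} (f : Map P Q) : Prop :=
  IsMorphism P.str Q.str (show P.carrier →L[ℂ] Q.carrier from f)

/-- A sequence `J 0, J 1, ...` of Fréchet modules with continuous linear maps `ε : X → J 0`,
`d k : J k → J (k + 1)` and backwards `s₀ : J 0 → X`, `s k : J (k + 1) → J k`. -/
structure Maps (X : FrechetMod.{u} A) (J : ℕ → FrechetMod.{u} A) where
  ε : Map X (J 0)
  d : ∀ k, Map (J k) (J (k + 1))
  s₀ : Map (J 0) X
  s : ∀ k, Map (J (k + 1)) (J k)

/-- `0 → X → J 0 → J 1 → ...` is a complex of modules and module morphisms. -/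
def Maps.IsComplex {X : FrechetMod.{u} A} {J : ℕ → FrechetMod.{u} A} (c : Maps X J) : Prop :=
  c.ε.IsMor ∧ (∀ k, (c.d k).IsMor) ∧ (∀ x, (c.d 0).app (c.ε.app x) = 0) ∧
    ∀ k y, (c.d (k + 1)).app ((c.d k).app y) = 0

/-- `s₀`, `s` is a contracting homotopy: the complex splits as a complex of topological vector
spaces. -/
def Maps.IsSplit {X : FrechetMod.{u} A} {J : ℕ → FrechetMod.{u} A} (c : Maps X J) : Prop :=
  (∀ x, c.s₀.app (c.ε.app x) = x) ∧
    (∀ y, c.ε.app (c.s₀.app y) + (c.s 0).app ((c.d 0).app y) = y) ∧
    ∀ k y, (c.d k).app ((c.s k).app y) + (c.s (k + 1)).app ((c.d (k + 1)).app y) = y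

/-- `X` has an injective coresolution: an admissible (split as a complex of topological vector
spaces) complex of Fréchet modules `0 → X → J 0 → J 1 → ...` with all `J k` injective. -/
def HasInjectiveCoresolution (X : FrechetMod.{u} A) : Prop :=
  ∃ (J : ℕ → FrechetMod.{u} A) (c : Maps X J),
    c.IsComplex ∧ c.IsSplit ∧ ∀ k, IsInjective (J k).str

end

/-- There is a (commutative) Fréchet algebra `A` such that the Fréchet module `A` (with the
multiplication of `A` as the action) has no injective coresolution, and no non-zero Fréchet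
`A`-module has one. -/
theorem result : ∃ (A : Type) (_ : NonUnitalCommRing A) (_ : Module ℂ A) (_ : UniformSpace A)
    (_ : IsFrechetAlgebra A) (_ : IsFrechetSpace A) (m : LeftModule A A),
    (∀ a b : A, m.act a b = a * b) ∧ ¬ HasInjectiveCoresolution (FrechetMod.mk (A := A) A m) ∧
    ∀ X : FrechetMod.{u} A, HasInjectiveCoresolution X → ∀ x : X.carrier, x = 0 := by
  have key : ∀ X : FrechetMod.{u} ZSeries, HasInjectiveCoresolution X → ∀ x : X.carrier, x = 0 := by
    rintro X ⟨J, c, -, hs, hJ⟩ x
    have h1 : ∀ y : (J 0).carrier, y = 0 := eq_zero_of_injective (J 0).str (hJ 0)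
    rw [← hs.1 x, h1 (c.ε.app x)]
    exact map_zero (show (J 0).carrier →L[ℂ] X.carrier from c.s₀)
  have key0 : ∀ X : FrechetMod.{0} ZSeries, HasInjectiveCoresolution X →
      ∀ x : X.carrier, x = 0 := by
    rintro X ⟨J, c, -, hs, hJ⟩ x
    have h1 : ∀ y : (J 0).carrier, y = 0 := eq_zero_of_injective (J 0).str (hJ 0)
    rw [← hs.1 x, h1 (c.ε.app x)]
    exact map_zero (show (J 0).carrier →L[ℂ] X.carrier from c.s₀)
  refine ⟨ZSeries, inferInstance, inferInstance, inferInstance, inferInstance, inferInstance,
    ⟨fun a b => a * b, add_mul, mul_add, smul_mul_assoc, mul_smul_comm, mul_assoc,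
      continuous_mul⟩, fun _ _ => rfl, ?_, key⟩
  intro h
  have h2 : ZSeries.mono 0 = 0 := key0 _ h (ZSeries.mono 0)
  have h3 : (1 : ℂ) = 0 := congrArg (fun a => ZSeries.co a 0) h2
  exact one_ne_zero h3

end Pool.Agent.Results.MP_8296bc_an.NoCoresolution
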